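import Pool.Agent.Q167.FD.Nd
import Pool.Agent.Q167.FE.Crit

/-!
# The Sato–Tate law of the group `USp(2g)` from an explicit finite set of orders of poles

`K` is a number field and `V` a rational polarised Hodge structure of odd weight and dimension `2g` whose Sato–Tate group is
`USp(2g)` (the generic case).  The class `x_v` is given by the eigenvalues `e^{± i θ_{v,1}}, …, e^{± i θ_{v,g}}` of the normalised
Frobenius, and the class functions on `USp(2g)` are the symmetric functions of the `cos θ_{v,j}`.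
For `n = (n_1, …, n_g)` let `R_n` be the tensor product of the `n_k`-th tensor powers of the exterior powers `Λ^k V`, `1 ≤ k ≤ g`
(a piece of the tensor power `V^{⊗ d}`, where `d = ∑ k n_k` is the degree of `n`), and `L(R_n, s)` its Euler product (for `n = 0`
this is the zeta function of `K`).
Every irreducible representation of `USp(2g)` is an integral combination of the `R_n`, and
the criterion of Serre asks that the `L(π, s)`, `π ≠ 1` irreducible, continue to the line `Re s = 1` without zeros and poles, that is,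
that all the orders of all the `L(R_n, s)` on the line `Re s = 1` have the right values.  The right order of the pole
at `s = 1` is the number of the invariants of `USp(2g)` in `R_n`.

The theorem is about families for which the `L(R_n, s)` are only known to be meromorphic at `s = 1`.

* The law of Sato and Tate (for the Dirichlet density) holds if and only if the orders at `s = 1` are right for the finitely many `n`
  of degree at most `100 (g · 2^g · g!)^4` and there is no `N ≥ 1` such that one hundred percent of the `θ_v` lie near the points of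
  order `N` of the torus.  Then all the orders at `s = 1` are right.  The bound depends neither on `K` nor on the family.
* If all `L(R_n, s)` are meromorphic at the points of the line `Re s = 1`, then the same two conditions are equivalent to
  the law of Sato and Tate for the natural density, and they imply that there are neither zeros nor poles at the points
  `1 + iτ`, `τ ≠ 0`.

Proof.  The mean values `φ(λ)` of the orbit sums of the characters of the maximal torus are a positive definite function on `ℤ^g` with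
integral values, and the orders for the `n` of degree `≤ g R` determine the `φ(λ)` with `|λ| ≤ R`.  So `φ(λ)` is the coefficient `D(λ)`
of the density `D = ∏_α (1 - e^α)` of Weyl for `|λ| ≤ R`; put `n = φ(0) = D(0) = 2^g g!`, and let `δ = 2g`, so that `D(c) = 0` for
`|c| > δ`.  Suppose that `φ(l) ≠ D(l)`; then `|l| > R` and `φ(l) ≠ 0`.
(1) By the inequality of Bessel there are at most `n^2` points `s` with `φ(l + s) ≠ 0` if the points are in a ball of radius `R / 2` and
more than `δ` apart.  So there is an integer `k ≤ (2 r + δ + 1) (δ n^2 + 1)` with `k > 2 r + δ` such that `φ(l + b - k c) = 0` for all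
`|b| ≤ r` and all `c ≠ 0` with `D(c) ≠ 0`, where `r = 2 (n^2 + 1) δ`.
(2) Let `F = ∏_{α > 0} (1 + e^α + … + e^{(k-1) α})`.  Then `|F|^2 D = D_k`, the density with `e^α` replaced by `e^{k α}`.  Let
`h = |F|^2 ∗ φ(l + ·)`.  The inequality of Bessel for the translates of `F` gives `∑ h(b)^2 ≤ n^2`, the sum over the ball of radius
`r`, since the translates of `F` by points of this ball are orthonormal up to the factor `D_k(b - b')`, which is `n` for
`b = b'` and zero otherwise; and `D ∗ h = D_k ∗ φ(l + ·) = n φ(l + ·)` on the ball, by (1).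
(3) The integral function `h` has at most `n^2` values `≠ 0` on the ball, so it vanishes on an annulus of width `δ`.  The part `h'` of
`h` inside of the annulus satisfies `D ∗ h' ≡ 0` modulo `n`, hence `h' ≡ 0` modulo `n`, as `D` is a product of monic binomials.
`h' / n` is integral with the sum of the squares at most `1`, and it is not zero, so it is `±` a point mass at `b₀`, and `φ(l + b₀) = ± n`.
(4) As `|φ(l + b₀)| = φ(0)`, the angles are concentrated near the points of a finite order of the torus.
-/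

set_option autoImplicit false
set_option linter.unusedSectionVars false

namespace Pool.Agent.Results.MP_4c4ce6_nt.EffectiveDetermination

open NumberField IsDedekindDomain Filter Topology

section

variable {g : ℕ}

/-- The eigenvalues `e^{i t_j}` and `e^{- i t_j}`. -/
noncomputable def eig (t : Fin g → ℝ) (x : Fin g × Bool) : ℂ :=
  Complex.exp (((if x.2 then t x.1 else -t x.1 : ℝ) : ℂ) * Complex.I)

/-- The index set of the basis of `R_n = ⨂_{k < g} (Λ^{k+1} V)^{⊗ n_k}`. -/
abbrev Ind (n : Fin g → ℕ) : Type :=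
  (k : Fin g) → Fin (n k) → {S : Finset (Fin g × Bool) // S.card = (k : ℕ) + 1}

/-- The eigenvalues on `R_n`. -/
noncomputable def tensorEig (n : Fin g → ℕ) (t : Fin g → ℝ) (S : Ind n) : ℂ :=
  ∏ k : Fin g, ∏ i : Fin (n k), ∏ x ∈ (S k i).1, eig t x

/-- The integral over `USp(2g)`, by the formula of Weyl, of the class function given by the function `f` of the angles. -/
noncomputable def haar (f : (Fin g → ℝ) → ℝ) : ℝ :=
  ((2 ^ g * g.factorial : ℕ) : ℝ)⁻¹ * (((2 * Real.pi) ^ g)⁻¹ *
    ∫ t in Set.pi Set.univ fun _ : Fin g => Set.Ioc (0 : ℝ) (2 * Real.pi),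
      f t * ((∏ i : Fin g, ∏ j ∈ Finset.Ioi i, (2 * Real.cos (t i) - 2 * Real.cos (t j)) ^ 2) *
        ∏ i : Fin g, 4 * Real.sin (t i) ^ 2))

/-- The number of the invariants of `USp(2g)` in `R_n`, the integral of the character. -/
noncomputable def invariants (n : Fin g → ℕ) : ℝ := haar fun t => (∑ S : Ind n, tensorEig n t S).re

/-- The degree of `R_n`, which is a piece of the tensor power of `V` with this exponent. -/
def degree (n : Fin g → ℕ) : ℕ := ∑ k : Fin g, ((k : ℕ) + 1) * n k

variable {K : Type} [Field K] [NumberField K]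

/-- The norm of a prime. -/
noncomputable def q (v : HeightOneSpectrum (𝓞 K)) : ℕ := Ideal.absNorm v.asIdeal

/-- The Euler product `L(R_n, s)`. -/
noncomputable def tensorL (θ : HeightOneSpectrum (𝓞 K) → Fin g → ℝ) (n : Fin g → ℕ) (s : ℂ) : ℂ :=
  ∏' v, (∏ S : Ind n, (1 - tensorEig n (θ v) S * (q v : ℂ) ^ (-s)))⁻¹

/-- `Λ` is a meromorphic continuation of `L(R_n, s)` to a neighbourhood of `1 + iτ`. -/
def IsContinuation (θ : HeightOneSpectrum (𝓞 K) → Fin g → ℝ) (n : Fin g → ℕ) (τ : ℝ) (Λ : ℂ → ℂ) :
    Prop :=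
  MeromorphicAt Λ (1 + τ * Complex.I) ∧
    ∀ᶠ s in 𝓝 ((1 : ℂ) + τ * Complex.I), (1 : ℝ) < s.re → Λ s = tensorL θ n s

/-- `φ` has the mean value `c`, in the sense of the Dirichlet density. -/
def HasMean (φ : HeightOneSpectrum (𝓞 K) → ℝ) (c : ℝ) : Prop :=
  Tendsto (fun ε : ℝ => (∑' v, φ v * (q v : ℝ) ^ (-(1 + ε))) / ∑' v, (q (K := K) v : ℝ) ^ (-(1 + ε)))
    (𝓝[>] 0) (𝓝 c)

/-- `φ` has the mean value `c`, in the sense of the natural density. -/
def HasAverage (φ : HeightOneSpectrum (𝓞 K) → ℝ) (c : ℝ) : Prop :=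
  Tendsto (fun N : ℕ => (∑ᶠ v : {v : HeightOneSpectrum (𝓞 K) // q v ≤ N}, φ v.1) /
    (Nat.card {v : HeightOneSpectrum (𝓞 K) // q v ≤ N} : ℝ)) atTop (𝓝 c)

open Classical in
/-- One hundred percent of the points `(θ_{v,1}, …, θ_{v,g})` are near the points of order `N` of the torus. -/
def Concentrated (θ : HeightOneSpectrum (𝓞 K) → Fin g → ℝ) (N : ℕ) : Prop :=
  ∀ δ : ℝ, 0 < δ →
    HasMean (fun v => if ∃ j, δ ≤ ‖Complex.exp (N * θ v j * Complex.I) - 1‖ then (1 : ℝ) else 0) 0

/-- The law of Sato and Tate for the Dirichlet density: the mean values of all continuous class functions on `USp(2g)`, that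
is, of all continuous symmetric functions `F` of the cosines. -/
def SatoTate (θ : HeightOneSpectrum (𝓞 K) → Fin g → ℝ) : Prop :=
  ∀ F : (Fin g → ℝ) → ℝ, Continuous F →
    (∀ (σ : Equiv.Perm (Fin g)) (x : Fin g → ℝ), F (fun j => x (σ j)) = F x) →
    HasMean (fun v => F fun j => Real.cos (θ v j)) (haar fun t => F fun j => Real.cos (t j))

/-- The law of Sato and Tate for the natural density. -/
def NaturalSatoTate (θ : HeightOneSpectrum (𝓞 K) → Fin g → ℝ) : Prop :=
  ∀ F : (Fin g → ℝ) → ℝ, Continuous F →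
    (∀ (σ : Equiv.Perm (Fin g)) (x : Fin g → ℝ), F (fun j => x (σ j)) = F x) →
    HasAverage (fun v => F fun j => Real.cos (θ v j)) (haar fun t => F fun j => Real.cos (t j))

end

section Bridge

open Pool.Agent.Q167.FD Pool.Agent.TH553.ST Pool.Agent.TH553.RS Pool.Agent.W540.BE

variable {g : ℕ} {K : Type} [Field K] [NumberField K] {θ : HeightOneSpectrum (𝓞 K) → Fin g → ℝ}

theorem haar_eq (f : (Fin g → ℝ) → ℝ) : haar f = weyl g f := rfl

theorem tensorL_eq (n : Fin g → ℕ) (s : ℂ) : tensorL θ n s = TL θ n s := rfl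

theorem inv_eq (n : Fin g → ℕ) : invariants n = weyl g (chR n) := by
  unfold invariants
  rw [haar_eq]
  congr 1
  funext t
  have h1 : (∑ S : Ind n, tensorEig n t S) = ((chR n t : ℝ) : ℂ) := sum_egv n t
  rw [h1, Complex.ofReal_re]

theorem cn_iff {n : Fin g → ℕ} {τ : ℝ} {Λ : ℂ → ℂ} : IsContinuation θ n τ Λ ↔ Ct θ n τ Λ := Iff.rfl

theorem mean_iff {φ : HeightOneSpectrum (𝓞 K) → ℝ} {c : ℝ} :
    HasMean φ c ↔ Tendsto (Pool.Agent.Q284.IM.dm φ) (𝓝[>] 0) (𝓝 c) := by
  unfold HasMean
  have : (fun ε : ℝ => (∑' v, φ v * (q v : ℝ) ^ (-(1 + ε))) /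
      ∑' v, (q (K := K) v : ℝ) ^ (-(1 + ε))) = Pool.Agent.Q284.IM.dm φ := by
    funext ε
    unfold Pool.Agent.Q284.IM.dm EP
    simp only [one_mul]
    rfl
  rw [this]

theorem mean_iff' {φ : HeightOneSpectrum (𝓞 K) → ℝ} (hφ : Bd φ) {c : ℝ} :
    HasMean φ c ↔ ∀ U : Ultrafilter ℝ, (U : Filter ℝ) ≤ 𝓝[>] 0 → M (nm K) U φ = c := by
  rw [mean_iff]
  exact ⟨fun h U hU => Pool.Agent.Q284.IM.M_of_dm h hU, fun h => Pool.Agent.Q284.IM.dm_tendsto hφ h⟩

theorem conc_iff {N : ℕ} : Concentrated θ N ↔ Cc θ N := by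
  unfold Concentrated Cc
  have : ∀ δ : ℝ, (fun v => if ∃ j, δ ≤ ‖Complex.exp (N * θ v j * Complex.I) - 1‖ then (1 : ℝ) else 0)
      = bad θ N δ := by
    intro δ
    funext v
    unfold bad
    push_cast
    rfl
  constructor
  · intro h U hU δ hδ
    have h1 := h δ hδ
    rw [this, mean_iff' (bd_bad θ N δ)] at h1
    exact h1 U hU
  · intro h δ hδ
    rw [this, mean_iff' (bd_bad θ N δ)]
    exact fun U hU => h U hU δ hδ

theorem avg_iff {φ : HeightOneSpectrum (𝓞 K) → ℝ} {c : ℝ} :
    HasAverage φ c ↔ Tendsto (mn φ) atTop (𝓝 c) := by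
  unfold HasAverage
  have : (fun N : ℕ => (∑ᶠ v : {v : HeightOneSpectrum (𝓞 K) // q v ≤ N}, φ v.1) /
      (Nat.card {v : HeightOneSpectrum (𝓞 K) // q v ≤ N} : ℝ)) = mn φ := by
    funext N
    have hs : ∀ v, v ∈ upto K N ↔ q v ≤ N := fun v => mem_upto
    let e : {v : HeightOneSpectrum (𝓞 K) // q v ≤ N} ≃ (upto K N) :=
      Equiv.subtypeEquivRight fun v => (hs v).symm
    have hfin : Finite {v : HeightOneSpectrum (𝓞 K) // q v ≤ N} := Finite.of_equiv _ e.symm
    unfold mn
    have h1 : (∑ᶠ v : {v : HeightOneSpectrum (𝓞 K) // q v ≤ N}, φ v.1) = ∑ v ∈ upto K N, φ v := by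
      rw [← Finset.sum_coe_sort, ← finsum_eq_sum_of_fintype, ← finsum_comp_equiv e]
      rfl
    have h2 : Nat.card {v : HeightOneSpectrum (𝓞 K) // q v ≤ N} = (upto K N).card := by
      rw [Nat.card_congr e, Nat.card_eq_fintype_card, Fintype.card_coe]
    rw [h1, h2, smul_eq_mul, div_eq_inv_mul]
  rw [this]

/-- the law and the orders -/
theorem law_iff {m : (Fin g → ℕ) → ℤ}
    (hm : ∀ U : Ultrafilter ℝ, (U : Filter ℝ) ≤ 𝓝[>] 0 → ∀ n,
      M (nm K) U (fun v => chR n (θ v)) = m n) :
    SatoTate θ ↔ ∀ n, (m n : ℝ) = weyl g (chR n) := by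
  constructor
  · intro h n
    have h1 := h (Fn n) (Fn_cont n) (Fn_symm n)
    simp only [Fn_cos] at h1
    rw [mean_iff' (bd_of θ (chR_bc n))] at h1
    rw [← hm (Ultrafilter.of (𝓝[>] 0)) (Ultrafilter.of_le _) n, h1 _ (Ultrafilter.of_le _)]
    rfl
  · intro h F hF hs
    rw [mean_iff' (bd_of θ (bc_cos hF))]
    intro U hU
    exact uniq_ch (M_mj (sysF K) hU θ) weyl_mj (fun n => (hm U hU n).trans (h n)) hF hs

end Bridge

/-- **The Sato–Tate law of `USp(2g)` from an explicit finite set of orders.**  Let `g ≥ 1`, `K` a number field and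
`θ_{v,1}, …, θ_{v,g}` real, for the primes `v` of `K`, such that all the
Euler products `L(R_n, s)` have a meromorphic continuation to a neighbourhood of `s = 1`, with a pole of order `m_n` (negative for a
zero) at `s = 1`.

I. The law of Sato and Tate holds for the Dirichlet density if and only if `m_n` is the number of the invariants of `USp(2g)` in `R_n`
for all `n`.

II. The law of Sato and Tate holds for the Dirichlet density if and only if `m_n` is the number of the invariants for the
finitely many `n` of degree at most `100 (g · 2^g · g!)^4`, and the `θ_v` are not concentrated near the points of order `N` of the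
torus for any `N ≥ 1`.

III. If for all `n` and all `τ` there is a meromorphic continuation of `L(R_n, s)` to a neighbourhood of `1 + iτ`, then the law of Sato
and Tate holds for the natural density if and only if `m_n` is the number of the invariants for the finitely many `n` of degree at
most `100 (g · 2^g · g!)^4` and the `θ_v` are not concentrated for any `N ≥ 1`, and if this is so then no `L(R_n, s)` has a zero or
a pole at `1 + iτ`, `τ ≠ 0`. -/
theorem result (g : ℕ) (hg : 1 ≤ g) : haar (g := g) (fun _ => 1) = 1 ∧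
    ∀ (K : Type) [Field K] [NumberField K]
      (θ : HeightOneSpectrum (𝓞 K) → Fin g → ℝ), (∀ n, ∃ Λ, IsContinuation θ n 0 Λ) →
      ∃ m : (Fin g → ℕ) → ℤ,
        (∀ n Λ, IsContinuation θ n 0 Λ → meromorphicOrderAt Λ 1 = ((-m n : ℤ) : WithTop ℤ)) ∧
        (SatoTate θ ↔ ∀ n, (m n : ℝ) = invariants n) ∧
        (SatoTate θ ↔
          (∀ n, degree n ≤ 100 * (g * (2 ^ g * g.factorial)) ^ 4 → (m n : ℝ) = invariants n) ∧
          ∀ N : ℕ, 1 ≤ N → ¬ Concentrated θ N) ∧
        ((∀ (n : Fin g → ℕ) (τ : ℝ), ∃ Λ, IsContinuation θ n τ Λ) →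
          (NaturalSatoTate θ ↔
            (∀ n, degree n ≤ 100 * (g * (2 ^ g * g.factorial)) ^ 4 → (m n : ℝ) = invariants n) ∧
            ∀ N : ℕ, 1 ≤ N → ¬ Concentrated θ N) ∧
          (NaturalSatoTate θ → ∀ (n : Fin g → ℕ) (τ : ℝ) (Λ : ℂ → ℂ), τ ≠ 0 →
            IsContinuation θ n τ Λ →
              meromorphicOrderAt Λ (1 + τ * Complex.I) = ((0 : ℤ) : WithTop ℤ))) := by
  refine ⟨Pool.Agent.Q167.FD.weyl_one, fun K _ _ θ hc => ?_⟩
  obtain ⟨m, hm1, hm⟩ := Pool.Agent.Q167.FD.exists_m θ hc
  have h1 : (1 : ℂ) + ((0 : ℝ) : ℂ) * Complex.I = 1 := by simp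
  have hI : SatoTate θ ↔ ∀ n, (m n : ℝ) = invariants n := by
    rw [law_iff hm]
    simp only [inv_eq]
  have hII : SatoTate θ ↔
      (∀ n, degree n ≤ 100 * (g * (2 ^ g * g.factorial)) ^ 4 → (m n : ℝ) = invariants n) ∧
        ∀ N : ℕ, 1 ≤ N → ¬ Concentrated θ N := by
    rw [law_iff hm, Pool.Agent.Q167.FE.crit_eff θ hg hm]
    simp only [inv_eq, conc_iff]
    rfl
  refine ⟨m, fun n Λ hΛ => ?_, hI, hII, fun hline => ?_⟩
  · have h2 := hm1 n Λ hΛ
    rwa [h1] at h2
  · have hN : NaturalSatoTate θ ↔ SatoTate θ := by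
      constructor
      · intro h F hF hs
        have h2 := h F hF hs
        rw [avg_iff] at h2
        rw [mean_iff' (Pool.Agent.Q167.FD.bd_of θ (Pool.Agent.Q167.FD.bc_cos hF))]
        intro U hU
        exact Pool.Agent.TH553.ST.M_of_mn hU
          (Pool.Agent.Q167.FD.bd_of θ (Pool.Agent.Q167.FD.bc_cos hF)) h2
      · intro h F hF hs
        rw [avg_iff]
        exact Pool.Agent.Q167.FD.natural θ hm ((law_iff hm).1 h) hm1 hline hF hs
    refine ⟨hN.trans hII, fun h n τ Λ hτ hΛ => ?_⟩
    exact Pool.Agent.Q167.FD.no_line θ hm ((law_iff hm).1 (hN.1 h)) hτ (fun n => hline n τ) hΛ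

end Pool.Agent.Results.MP_4c4ce6_nt.EffectiveDetermination
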