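import Pool.Agent.Q284.GR.Fi

/-!
# Sato-Tate laws of several families, jointly with the Frobenius elements: only the pairs matter, and only at `s = 1`

Let `K` be a number field, `W` the subgroup of the absolute Galois group `G_K` which belongs to a finite Galois extension `L` of
`K`, and consider finitely many families as in the problem over `K`, with connected Sato-Tate groups `G_i` and the classes
`x_{i,v} ∈ G_i`, each of which satisfies the Sato-Tate law over `K`.  All groups `G_i`, with at most one exception, are supposed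
to have no nontrivial homomorphisms to the circle (they are semisimple).  For irreducible representations `π_i` of the `G_i` and
`ρ` of `Gal(L/K)` let
`L(⊗ π_i ⊗ ρ, s) = ∏_v det(1 - q_v^{-s} π_1(x_{1,v}) ⊗ ... ⊗ π_r(x_{r,v}) ⊗ ρ(Frob_v))⁻¹`.

The criterion of Serre for the joint law of the classes `x_{i,v}` and of the Frobenius elements in `Gal(L/K)`, and for the
Sato-Tate laws over the extensions of `K`, asks for continuations of all these functions to `Re s ≥ 1` without zeros and poles.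
The theorem of this file needs much less.  Suppose that the functions with at least two nontrivial factors have a meromorphic
continuation to a neighbourhood of the single point `s = 1`.

* The joint law is the product law (in the sense of the Dirichlet density) if and only if for all pairs `i ≠ j` and nontrivial
  irreducible `π_i`, `π_j` the function `L(π_i ⊗ π_j, s)` has neither a zero nor a pole at `s = 1`.  It is enough to know this
  for the pairs for which `|tr π_i|²` and `|tr π_j|²` have the same moments (for instance, `π_i` and `π_j` have the same dimension).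
  Nothing is needed for the products of three or more factors and nothing for the twists with `ρ ≠ 1`.
* Then none of the functions with at least two nontrivial factors has a zero or a pole on the line `Re s = 1`, wherever it has a
  meromorphic continuation; and if they all have continuations to neighbourhoods of the points of this line, then the joint law
  holds in the sense of the natural density.

For one family the condition on the pairs is void: the Sato-Tate law over `K` and the meromorphic continuation of the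
`L(π ⊗ ρ, s)` at `s = 1` imply the joint law with the Frobenius elements (and hence, in the usual way, the Sato-Tate law in the
sense of Dirichlet over all fields between `K` and `L`); no knowledge of zeros and poles is needed.

The proof is analytic and replaces the lemma of Goursat and Ribet.  If the order `-m` of `L(⊗ π_i ⊗ ρ, s)` at `1 + iτ` is not
zero, then `m` is the mean value of a product of functions on the primes whose length is one, by induction; the case of equality
in the inequality of Cauchy and Schwarz gives `|χ_i|² = ∏_{l ≠ i} |χ_l|²` for almost all primes.  For three factors this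
contradicts the pairwise independence, since the fourth moment of a character of dimension at least two is greater than one.
For a factor `ρ` with a finite group and a connected group `G_i` it implies that `|χ_i|²` has only finitely many values and is
constant, and then that `χ_i(x_v) q_v^{-iτ}` is in a finite set for almost all primes, which is impossible by the Sato-Tate law.
-/

set_option autoImplicit false
set_option linter.unusedSectionVars false

namespace Pool.Agent.Results.MP_4c4ce6_nt.JointChebotarev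

open NumberField IsDedekindDomain Filter Topology MeasureTheory
open Pool.Agent.W401.Cheb (GK IsFrob)
open scoped Kronecker

section

variable {K : Type} [Field K] [NumberField K]

/-- The norm of a prime. -/
noncomputable def q (v : HeightOneSpectrum (𝓞 K)) : ℕ := Ideal.absNorm v.asIdeal

/-- `φ` has the mean value `c`, in the sense of the Dirichlet density. -/
def HasMean (φ : HeightOneSpectrum (𝓞 K) → ℂ) (c : ℂ) : Prop :=
  Tendsto (fun ε : ℝ => (∑' v, φ v * (q v : ℂ) ^ (-(1 + ε) : ℂ)) /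
    ∑' v, (q (K := K) v : ℂ) ^ (-(1 + ε) : ℂ)) (𝓝[>] 0) (𝓝 c)

/-- `φ` has the mean value `c`, in the sense of the natural density. -/
def HasAverage (φ : HeightOneSpectrum (𝓞 K) → ℂ) (c : ℂ) : Prop :=
  Tendsto (fun N : ℕ => (∑ᶠ v : {v : HeightOneSpectrum (𝓞 K) // q v ≤ N}, φ v.1) /
    (Nat.card {v : HeightOneSpectrum (𝓞 K) // q v ≤ N} : ℂ)) atTop (𝓝 c)

/-- The classes of the `x v` are equidistributed for `μ`, in the sense of the natural density. -/
def Equidistributed {G : Type} [Group G] [TopologicalSpace G] [MeasurableSpace G]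
    (x : HeightOneSpectrum (𝓞 K) → G) (μ : Measure G) : Prop :=
  ∀ f : G → ℂ, Continuous f → (∀ g h, f (h * g * h⁻¹) = f g) →
    HasAverage (fun v => f (x v)) (∫ g, f g ∂μ)

end

/-- The unitary representation `π` is continuous and irreducible (its dimension is not zero and only the scalars commute with all
matrices `π g`). -/
structure IsIrreducible {G : Type} [Group G] [TopologicalSpace G] {n : ℕ}
    (π : G →* Matrix.unitaryGroup (Fin n) ℂ) : Prop where
  pos : n ≠ 0
  continuous : Continuous π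
  schur : ∀ A : Matrix (Fin n) (Fin n) ℂ, (∀ g, (π g : Matrix (Fin n) (Fin n) ℂ) * A = A * π g) →
    ∃ c : ℂ, A = c • (1 : Matrix (Fin n) (Fin n) ℂ)

/-- The representation `π` is not trivial. -/
def IsNontrivial {G : Type} [Group G] {n : ℕ} (π : G →* Matrix.unitaryGroup (Fin n) ℂ) : Prop :=
  ∃ g, π g ≠ 1

/-- There are no nontrivial continuous homomorphisms to the circle. -/
def IsPerfect (G : Type) [Group G] [TopologicalSpace G] : Prop :=
  ∀ χ : G →* Circle, Continuous χ → χ = 1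

section

variable {K : Type} [Field K] [NumberField K] {ι : Type} [Fintype ι] [DecidableEq ι]
  {G : ι → Type} [∀ i, Group (G i)] [∀ i, TopologicalSpace (G i)] {W : Subgroup (GK K)} [W.Normal]

/-- The `π_i` and `ρ` are irreducible, and at least two of them are nontrivial, among them at least one of the `π_i`. -/
def IsMixed {n : ι → ℕ} (π : ∀ i, G i →* Matrix.unitaryGroup (Fin (n i)) ℂ) {m : ℕ}
    (ρ : (GK K ⧸ W) →* Matrix.unitaryGroup (Fin m) ℂ) : Prop :=
  ((∀ i, IsIrreducible (π i)) ∧ IsIrreducible ρ) ∧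
    ∃ i, IsNontrivial (π i) ∧ ((∃ j, j ≠ i ∧ IsNontrivial (π j)) ∨ IsNontrivial ρ)

/-- The `π_i` and `ρ` are irreducible and exactly two of them are nontrivial, namely `π_i` and `π_j`, and the squares of the
absolute values of the characters of these two have the same moments. -/
def IsPair [∀ i, MeasurableSpace (G i)] (μ : ∀ i, Measure (G i)) {n : ι → ℕ}
    (π : ∀ i, G i →* Matrix.unitaryGroup (Fin (n i)) ℂ) {m : ℕ}
    (ρ : (GK K ⧸ W) →* Matrix.unitaryGroup (Fin m) ℂ) (i j : ι) : Prop :=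
  ((∀ i, IsIrreducible (π i)) ∧ IsIrreducible ρ) ∧
    i ≠ j ∧ IsNontrivial (π i) ∧ IsNontrivial (π j) ∧
    (∀ l, l ≠ i → l ≠ j → ¬ IsNontrivial (π l)) ∧ ¬ IsNontrivial ρ ∧
    ∀ k : ℕ, ∫ g, (‖(π i g : Matrix (Fin (n i)) (Fin (n i)) ℂ).trace‖ ^ 2) ^ k ∂(μ i) =
      ∫ g, (‖(π j g : Matrix (Fin (n j)) (Fin (n j)) ℂ).trace‖ ^ 2) ^ k ∂(μ j)

/-- The tensor product of the matrices `A_i`. -/
noncomputable def tensor {n : ι → ℕ} (A : ∀ i, Matrix (Fin (n i)) (Fin (n i)) ℂ) :
    Matrix (∀ i, Fin (n i)) (∀ i, Fin (n i)) ℂ := Matrix.of fun a b => ∏ i, A i (a i) (b i)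

/-- The Euler product `L(⊗ π_i ⊗ ρ, s) = ∏_v det(1 - q_v^{-s} ⊗ π_i(x_{i,v}) ⊗ ρ(σ_v))⁻¹`; here `σ_v` is a Frobenius
element at `v`. -/
noncomputable def LFun (x : ∀ i, HeightOneSpectrum (𝓞 K) → G i) (σ : HeightOneSpectrum (𝓞 K) → GK K)
    {n : ι → ℕ} (π : ∀ i, G i →* Matrix.unitaryGroup (Fin (n i)) ℂ) {m : ℕ}
    (ρ : (GK K ⧸ W) →* Matrix.unitaryGroup (Fin m) ℂ) (s : ℂ) : ℂ :=
  ∏' v, (Matrix.det (1 - ((q v : ℂ) ^ (-s)) •
    (tensor (fun i => (π i (x i v) : Matrix (Fin (n i)) (Fin (n i)) ℂ)) ⊗ₖ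
      (ρ (QuotientGroup.mk (σ v)) : Matrix (Fin m) (Fin m) ℂ))))⁻¹

/-- `Λ` is a meromorphic continuation of `L(⊗ π_i ⊗ ρ, s)` to a neighbourhood of `1 + iτ`. -/
def IsContinuation (x : ∀ i, HeightOneSpectrum (𝓞 K) → G i)
    (σ : HeightOneSpectrum (𝓞 K) → GK K) {n : ι → ℕ}
    (π : ∀ i, G i →* Matrix.unitaryGroup (Fin (n i)) ℂ) {m : ℕ}
    (ρ : (GK K ⧸ W) →* Matrix.unitaryGroup (Fin m) ℂ) (τ : ℝ) (Λ : ℂ → ℂ) : Prop :=
  MeromorphicAt Λ (1 + τ * Complex.I) ∧
    ∀ᶠ s in 𝓝 ((1 : ℂ) + τ * Complex.I), (1 : ℝ) < s.re → Λ s = LFun x σ π ρ s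

/-- The function `F_1(x_{1,v}) ... F_r(x_{r,v}) f(σ_v)`. -/
noncomputable def test (x : ∀ i, HeightOneSpectrum (𝓞 K) → G i)
    (σ : HeightOneSpectrum (𝓞 K) → GK K) (F : ∀ i, G i → ℂ) (f : GK K ⧸ W → ℂ)
    (v : HeightOneSpectrum (𝓞 K)) : ℂ := (∏ i, F i (x i v)) * f (QuotientGroup.mk (σ v))

/-- The product of the integrals of the `F_i` and of the mean value of `f`. -/
noncomputable def value [∀ i, MeasurableSpace (G i)] (μ : ∀ i, Measure (G i)) (F : ∀ i, G i → ℂ)
    (f : GK K ⧸ W → ℂ) : ℂ :=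
  (∏ i, ∫ g, F i g ∂(μ i)) * ((Nat.card (GK K ⧸ W) : ℂ)⁻¹ * ∑ᶠ a, f a)

/-- The `F_i` are continuous class functions and `f` is a class function. -/
def IsTest (F : ∀ i, G i → ℂ) (f : GK K ⧸ W → ℂ) : Prop :=
  (∀ i, Continuous (F i) ∧ ∀ g h, F i (h * g * h⁻¹) = F i g) ∧ ∀ a b, f (b * a * b⁻¹) = f a

variable (W)

/-- All `L(⊗ π_i ⊗ ρ, s)` with at least two nontrivial representations have meromorphic continuations to a neighbourhood of
`1 + iτ`. -/
def Continues (x : ∀ i, HeightOneSpectrum (𝓞 K) → G i) (σ : HeightOneSpectrum (𝓞 K) → GK K)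
    (τ : ℝ) : Prop :=
  ∀ (n : ι → ℕ) (π : ∀ i, G i →* Matrix.unitaryGroup (Fin (n i)) ℂ) (m : ℕ)
    (ρ : (GK K ⧸ W) →* Matrix.unitaryGroup (Fin m) ℂ), IsMixed π ρ →
      ∃ Λ, IsContinuation x σ π ρ τ Λ

/-- No `L(⊗ π_i ⊗ ρ, s)` with at least two nontrivial representations has a zero or a pole at a point `1 + iτ` at which it has a
meromorphic continuation. -/
def Regular (x : ∀ i, HeightOneSpectrum (𝓞 K) → G i) (σ : HeightOneSpectrum (𝓞 K) → GK K) : Prop :=
  ∀ (n : ι → ℕ) (π : ∀ i, G i →* Matrix.unitaryGroup (Fin (n i)) ℂ) (m : ℕ)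
    (ρ : (GK K ⧸ W) →* Matrix.unitaryGroup (Fin m) ℂ), IsMixed π ρ →
      ∀ (τ : ℝ) (Λ : ℂ → ℂ), IsContinuation x σ π ρ τ Λ →
        meromorphicOrderAt Λ (1 + τ * Complex.I) = 0

/-- No `L(π_i ⊗ π_j, s)` has a zero or a pole at `s = 1`, for the pairs of `IsPair`. -/
def PairsRegular [∀ i, MeasurableSpace (G i)] (μ : ∀ i, Measure (G i))
    (x : ∀ i, HeightOneSpectrum (𝓞 K) → G i) (σ : HeightOneSpectrum (𝓞 K) → GK K) : Prop :=
  ∀ (n : ι → ℕ) (π : ∀ i, G i →* Matrix.unitaryGroup (Fin (n i)) ℂ) (m : ℕ)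
    (ρ : (GK K ⧸ W) →* Matrix.unitaryGroup (Fin m) ℂ) (i j : ι), IsPair μ π ρ i j →
      ∀ Λ, IsContinuation x σ π ρ 0 Λ → meromorphicOrderAt Λ 1 = 0

/-- The joint law of the classes of the `x_{i,v}` and of the `σ_v` modulo `W` is the product law, in the sense of the Dirichlet
density. -/
def DirichletLaw [∀ i, MeasurableSpace (G i)] (μ : ∀ i, Measure (G i))
    (x : ∀ i, HeightOneSpectrum (𝓞 K) → G i) (σ : HeightOneSpectrum (𝓞 K) → GK K) : Prop :=
  ∀ (F : ∀ i, G i → ℂ) (f : GK K ⧸ W → ℂ), IsTest F f → HasMean (test x σ F f) (value μ F f)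

/-- The joint law is the product law, in the sense of the natural density. -/
def NaturalLaw [∀ i, MeasurableSpace (G i)] (μ : ∀ i, Measure (G i))
    (x : ∀ i, HeightOneSpectrum (𝓞 K) → G i) (σ : HeightOneSpectrum (𝓞 K) → GK K) : Prop :=
  ∀ (F : ∀ i, G i → ℂ) (f : GK K ⧸ W → ℂ), IsTest F f → HasAverage (test x σ F f) (value μ F f)

end

section Bridge

open Pool.Agent.Q284.IM Pool.Agent.Q284.CP Pool.Agent.TH553.ST Pool.Agent.TH553.RS
  Pool.Agent.W540.BE Pool.Agent.Q284.GR Pool.Agent.H341R2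

variable {K : Type} [Field K] [NumberField K]

theorem avg_iff {φ : HeightOneSpectrum (𝓞 K) → ℂ} {c : ℂ} :
    HasAverage φ c ↔ Tendsto (mn φ) atTop (𝓝 c) := by
  unfold HasAverage
  have : (fun N : ℕ => (∑ᶠ v : {v : HeightOneSpectrum (𝓞 K) // q v ≤ N}, φ v.1) /
      (Nat.card {v : HeightOneSpectrum (𝓞 K) // q v ≤ N} : ℂ)) = mn φ := by
    funext N
    have hs : ∀ v, v ∈ upto K N ↔ q v ≤ N := fun v => mem_upto
    let e : {v : HeightOneSpectrum (𝓞 K) // q v ≤ N} ≃ (upto K N) :=
      Equiv.subtypeEquivRight fun v => (hs v).symm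
    have hfin : Finite {v : HeightOneSpectrum (𝓞 K) // q v ≤ N} := Finite.of_equiv _ e.symm
    unfold mn
    have h1 : (∑ᶠ v : {v : HeightOneSpectrum (𝓞 K) // q v ≤ N}, φ v.1) = ∑ v ∈ upto K N, φ v := by
      rw [← Finset.sum_coe_sort, ← finsum_eq_sum_of_fintype, ← finsum_comp_equiv e]
      rfl
    have h2 : Nat.card {v : HeightOneSpectrum (𝓞 K) // q v ≤ N} = (upto K N).card := by
      rw [Nat.card_congr e, Nat.card_eq_fintype_card, Fintype.card_coe]
    rw [h1, h2, Complex.real_smul, div_eq_inv_mul]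
    push_cast
    rfl
  rw [this]

theorem dir_eq {φ : HeightOneSpectrum (𝓞 K) → ℂ} (hφ : Bz φ) {ε : ℝ} (hε : 0 < ε) :
    (∑' v, φ v * (q v : ℂ) ^ (-(1 + ε) : ℂ)) / ∑' v, (q (K := K) v : ℂ) ^ (-(1 + ε) : ℂ) =
      ((dm (fun v => (φ v).re) ε : ℝ) : ℂ) + ((dm (fun v => (φ v).im) ε : ℝ) : ℂ) * Complex.I := by
  obtain ⟨B, hB⟩ := hφ
  have hw : ∀ v : HeightOneSpectrum (𝓞 K), (q v : ℂ) ^ (-(1 + ε) : ℂ) =
      (((nm K v : ℝ) ^ (-(1 + ε)) : ℝ) : ℂ) := by
    intro v
    rw [Complex.ofReal_cpow (Nat.cast_nonneg _)]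
    push_cast
    rfl
  have hre : 1 < ((1 : ℂ) + ε).re := by simp [hε]
  have hs := summable_nm hB hre
  have hs' : Summable fun v => φ v * (((nm K v : ℝ) ^ (-(1 + ε)) : ℝ) : ℂ) := by
    refine hs.congr fun v => ?_
    rw [← hw]
    rfl
  simp only [hw]
  have h1 : (∑' v, φ v * (((nm K v : ℝ) ^ (-(1 + ε)) : ℝ) : ℂ)) =
      ((EP (nm K) ε (fun v => (φ v).re) : ℝ) : ℂ) +
        ((EP (nm K) ε (fun v => (φ v).im) : ℝ) : ℂ) * Complex.I := by
    apply Complex.ext
    · rw [Complex.re_tsum hs']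
      simp [EP]
    · rw [Complex.im_tsum hs']
      simp [EP]
  have h2 : (∑' v, (((nm K v : ℝ) ^ (-(1 + ε)) : ℝ) : ℂ)) =
      ((EP (nm K) ε (fun _ => 1) : ℝ) : ℂ) := by
    rw [← Complex.ofReal_tsum]
    unfold EP
    simp
  rw [h1, h2]
  unfold dm
  push_cast
  ring

theorem mean_iff {φ : HeightOneSpectrum (𝓞 K) → ℂ} (hφ : Bz φ) {c : ℂ} :
    HasMean φ c ↔ Tendsto (dm fun v => (φ v).re) (𝓝[>] 0) (𝓝 c.re) ∧
      Tendsto (dm fun v => (φ v).im) (𝓝[>] 0) (𝓝 c.im) := by
  have he : (fun ε : ℝ => (∑' v, φ v * (q v : ℂ) ^ (-(1 + ε) : ℂ)) /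
      ∑' v, (q (K := K) v : ℂ) ^ (-(1 + ε) : ℂ)) =ᶠ[𝓝[>] 0] fun ε =>
      ((dm (fun v => (φ v).re) ε : ℝ) : ℂ) + ((dm (fun v => (φ v).im) ε : ℝ) : ℂ) *
        Complex.I := by
    filter_upwards [self_mem_nhdsWithin] with ε hε
    exact dir_eq hφ hε
  unfold HasMean
  rw [tendsto_congr' he]
  constructor
  · intro h
    have h1 := (Complex.continuous_re.tendsto _).comp h
    have h2 := (Complex.continuous_im.tendsto _).comp h
    exact ⟨h1.congr fun ε => by simp, h2.congr fun ε => by simp⟩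
  · rintro ⟨h1, h2⟩
    have h3 := ((Complex.continuous_ofReal.tendsto _).comp h1).add
      (((Complex.continuous_ofReal.tendsto _).comp h2).mul_const Complex.I)
    rw [Complex.re_add_im] at h3
    exact h3

theorem law_of {G : Type} [Group G] [TopologicalSpace G] [IsTopologicalGroup G] [CompactSpace G]
    [MeasurableSpace G] [BorelSpace G] {μ : Measure G} [IsProbabilityMeasure μ]
    {x : HeightOneSpectrum (𝓞 K) → G} (h : Equidistributed x μ) : Law x μ := by
  intro f hf hcl
  have h1 := h (fun g => (f g : ℂ)) (Complex.continuous_ofReal.comp hf) fun g h => by rw [hcl]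
  have h0 : ∫ g, (f g : ℂ) ∂μ = ((∫ g, f g ∂μ : ℝ) : ℂ) := integral_ofReal
  rw [avg_iff, h0] at h1
  have h2 := (Complex.continuous_re.tendsto _).comp h1
  refine h2.congr fun N => ?_
  simp only [Function.comp]
  rw [re_mn]
  rfl

variable {ι : Type} [Fintype ι] [DecidableEq ι]
  {G : ι → Type} [∀ i, Group (G i)] [∀ i, TopologicalSpace (G i)] [∀ i, MeasurableSpace (G i)]
  {W : Subgroup (GK K)} [W.Normal] {x : ∀ i, HeightOneSpectrum (𝓞 K) → G i}
  {σ : HeightOneSpectrum (𝓞 K) → GK K}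

/-- the Frobenius elements in the quotient -/
noncomputable abbrev fr (W : Subgroup (GK K)) [W.Normal] (σ : HeightOneSpectrum (𝓞 K) → GK K)
    (v : HeightOneSpectrum (𝓞 K)) : GK K ⧸ W := QuotientGroup.mk (σ v)

theorem rp_of {n : ι → ℕ} {π : ∀ i, G i →* Matrix.unitaryGroup (Fin (n i)) ℂ} {m : ℕ}
    {ρ : (GK K ⧸ W) →* Matrix.unitaryGroup (Fin m) ℂ}
    (h : (∀ i, IsIrreducible (π i)) ∧ IsIrreducible ρ) : Rp n π m ρ :=
  ⟨fun i => (h.1 i).pos, fun i => (h.1 i).continuous, fun i => (h.1 i).schur,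
    h.2.pos, h.2.continuous, h.2.schur⟩

theorem of_rp {n : ι → ℕ} {π : ∀ i, G i →* Matrix.unitaryGroup (Fin (n i)) ℂ} {m : ℕ}
    {ρ : (GK K ⧸ W) →* Matrix.unitaryGroup (Fin m) ℂ} (h : Rp n π m ρ) :
    (∀ i, IsIrreducible (π i)) ∧ IsIrreducible ρ :=
  ⟨fun i => ⟨h.pn i, h.pc i, h.ps i⟩, ⟨h.rn, h.rc, h.rs⟩⟩

theorem ts_of [DiscreteTopology (GK K ⧸ W)] {F : ∀ i, G i → ℂ} {f : GK K ⧸ W → ℂ}
    (h : IsTest F f) : Ts F f :=
  ⟨fun i => (h.1 i).1, fun i => (h.1 i).2, continuous_of_discreteTopology, h.2⟩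

theorem of_ts {F : ∀ i, G i → ℂ} {f : GK K ⧸ W → ℂ} (h : Ts F f) : IsTest F f :=
  ⟨fun i => ⟨h.c i, h.k i⟩, h.k'⟩

theorem test_eq (F : ∀ i, G i → ℂ) (f : GK K ⧸ W → ℂ) : test x σ F f = fn x (fr W σ) F f := by
  funext v
  unfold test fn
  rw [mul_comm]

end Bridge

/-- **Sato-Tate laws of several families, jointly with the Frobenius elements.**  Let `K` be a number field, `G_i` finitely many
compact connected groups with Haar probability measures `μ_i`, at most one of them with nontrivial homomorphisms to the circle, and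
`x_{i,v} ∈ G_i` for the primes `v` of `K`, such that for every `i` the classes of the `x_{i,v}` are equidistributed.  Let
`σ_v` be Frobenius elements in the absolute Galois group `G_K` and `W` an open normal subgroup of `G_K`.  Suppose that all
functions `L(⊗ π_i ⊗ ρ, s)` with irreducible `π_i` and `ρ`, of which at least two are nontrivial, have a meromorphic
continuation to a neighbourhood of `s = 1`.

I.  The joint law of the classes of the `x_{i,v}` and of the `σ_v` modulo `W` is the product law, in the sense of the Dirichlet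
density, if and only if `L(π_i ⊗ π_j, s)` has neither a zero nor a pole at `s = 1` for all pairs (see `IsPair`).

II.  In this case there are no zeros and poles at any point `1 + iτ` at which a function `L(⊗ π_i ⊗ ρ, s)` with at least two
nontrivial factors has a meromorphic continuation.

III.  If there are continuations to neighbourhoods of all points `1 + iτ`, then the joint law holds in the sense of the
natural density. -/
theorem result (K : Type) [Field K] [NumberField K] (ι : Type) [Fintype ι] [DecidableEq ι]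
    (G : ι → Type) [∀ i, Group (G i)] [∀ i, TopologicalSpace (G i)]
    [∀ i, IsTopologicalGroup (G i)] [∀ i, CompactSpace (G i)] [∀ i, T2Space (G i)]
    [∀ i, ConnectedSpace (G i)] [∀ i, MeasurableSpace (G i)] [∀ i, BorelSpace (G i)]
    (μ : ∀ i, Measure (G i)) [∀ i, IsProbabilityMeasure (μ i)] [∀ i, (μ i).IsHaarMeasure]
    (hG : ∀ i j : ι, i ≠ j → IsPerfect (G i) ∨ IsPerfect (G j))
    (x : ∀ i, HeightOneSpectrum (𝓞 K) → G i) (hx : ∀ i, Equidistributed (x i) (μ i))
    (σ : HeightOneSpectrum (𝓞 K) → GK K) (hσ : ∀ v, IsFrob v (σ v))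
    (W : Subgroup (GK K)) [W.Normal] (hW : IsOpen (W : Set (GK K)))
    (hL : Continues W x σ 0) :
    (PairsRegular W μ x σ ↔ DirichletLaw W μ x σ) ∧
    (PairsRegular W μ x σ → Regular W x σ ∧ ((∀ τ, Continues W x σ τ) → NaturalLaw W μ x σ)) := by
  classical
  have : DiscreteTopology (GK K ⧸ W) := QuotientGroup.discreteTopology hW
  have hfin : Finite (GK K ⧸ W) := Subgroup.quotient_finite_of_isOpen W hW
  let _ : MeasurableSpace (GK K ⧸ W) := borel (GK K ⧸ W)
  have _ : BorelSpace (GK K ⧸ W) := ⟨rfl⟩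
  set ν : Measure (GK K ⧸ W) := Measure.haarMeasure ⊤ with hν
  have hν1 : IsProbabilityMeasure ν := ⟨by
    rw [hν]
    exact Measure.haarMeasure_self⟩
  have hx' : ∀ i, Pool.Agent.TH553.ST.Law (x i) (μ i) := fun i => law_of (hx i)
  have hz : Pool.Agent.TH553.ST.Law (fr W σ) ν := Pool.Agent.Q284.GR.law_gal W hW ν σ hσ
  have hval : ∀ (F : ∀ i, G i → ℂ) (f : GK K ⧸ W → ℂ),
      value μ F f = Pool.Agent.Q284.GR.ig μ ν F f := by
    intro F f
    unfold value Pool.Agent.Q284.GR.ig
    rw [Pool.Agent.Q284.GR.int_fin ν f, mul_comm]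
  have hc0 : ∀ (n : ι → ℕ) (π : ∀ i, G i →* Matrix.unitaryGroup (Fin (n i)) ℂ) (m : ℕ)
      (ρ : (GK K ⧸ W) →* Matrix.unitaryGroup (Fin m) ℂ), Pool.Agent.Q284.GR.Rp n π m ρ →
      Pool.Agent.Q284.GR.Mx π ρ → ∃ Λ, Pool.Agent.Q284.GR.Cn x (fr W σ) π ρ 0 Λ :=
    fun n π m ρ hR hM => hL n π m ρ ⟨of_rp hR, hM⟩
  have hpr : PairsRegular W μ x σ → Pool.Agent.Q284.GR.Pr x (fr W σ) μ := by
    intro h n π m ρ hR i j hij hi hj hlt hρ hs Λ hΛ
    exact h n π m ρ i j ⟨of_rp hR, hij, hi, hj,
      fun l h1 h2 h3 => h3.elim fun g hg => hg (hlt l h1 h2 g),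
      fun h3 => h3.elim fun g hg => hg (hρ g), hs⟩ Λ hΛ
  refine ⟨⟨fun h F f hF => ?_, fun h n π m ρ i j hT Λ hΛ => ?_⟩,
    fun h => ⟨fun n π m ρ hT τ Λ hΛ => ?_, fun hcl F f hF => ?_⟩⟩
  · rw [test_eq, mean_iff (Pool.Agent.Q284.GR.bz_fn (ts_of hF)), hval]
    exact Pool.Agent.Q284.GR.law_dir hx' hz hG hc0 (hpr h) F f (ts_of hF)
  · have hJ : Pool.Agent.Q284.GR.JD x (fr W σ) μ ν := by
      intro F f hF
      have h1 := h F f (of_ts hF)
      rw [test_eq, mean_iff (Pool.Agent.Q284.GR.bz_fn hF), hval] at h1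
      exact h1
    exact Pool.Agent.Q284.GR.order_of_law hJ (rp_of hT.1)
      ⟨i, hT.2.2.1, Or.inl ⟨j, fun h' => hT.2.1 h'.symm, hT.2.2.2.1⟩⟩ hΛ
  · exact Pool.Agent.Q284.GR.order_line hx' hz hG hc0 (hpr h) (rp_of hT.1) hT.2 hΛ
  · rw [avg_iff, test_eq, hval]
    exact Pool.Agent.Q284.GR.law_nat hx' hz hG
      (fun n π m ρ hR hM τ => hcl τ n π m ρ ⟨of_rp hR, hM⟩) (hpr h) (ts_of hF)

end Pool.Agent.Results.MP_4c4ce6_nt.JointChebotarev
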