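import Pool.Agent.Q284.IM.Two

/-!
# The Sato–Tate law of families of rank two from meromorphic continuations to the point `s = 1`

`K` is a number field and `V` a rational polarised Hodge structure of dimension two and odd weight, so that `Iso (V, ψ)` is `SL₂`
and the class `x_v` of the Sato–Tate group `ST_K ⊂ SU(2)` is given by its eigenvalues `e^{± i θ_v}`.  The possible groups are
`SU(2)`, the normaliser `N(U(1))` of a maximal torus, and `U(1)`.  The criterion of Serre for the equidistribution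
asks, for `SU(2)`, for the continuation of all `L(Sym^n, s)`, `n ≥ 1`, to the line `Re s = 1` without poles and without zeros.

The theorem is about the families of angles for which the `L(Sym^n, s)` are only known to be meromorphic.  Let `m_n` be the order of
the pole at `s = 1` (negative for a zero).  The angles are called concentrated (for `N ≥ 1`) if for every
`δ > 0` the primes with `|e^{i N θ_v} - 1| ≥ δ` have Dirichlet density zero, that is, if one hundred percent of the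
angles lie near the finite set of the multiples of `2π / N`.

* If all `L(Sym^n, s)` are meromorphic at the point `s = 1`, then there are only three possibilities: the angles are
  concentrated for some `N`; or the law is `(1 + σ cos N t) dt / π` on `[0, π]` with `σ ∈ {0, 1, -1}` and `N ≥ 1`; or it is half
  of `dt / π` plus half of the uniform measure on the angles with `e^{i d t} = 1`, or `-1`, for some `d ≥ 1`.
* `SU(2)`: the law of Sato and Tate `(2/π) sin² t dt` holds for the Dirichlet density if and only if `m_2 ≤ 0`, `m_4 ≤ 0` and there is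
  no concentration.  Then all `m_n` are zero.
* `N(U(1))`: half of `dt / π` plus half of the point mass at `π / 2` holds if and only if `m_2 ≤ 0`, `m_4 ≥ 1` and there
  is no concentration.
* If the `L(Sym^n, s)` are meromorphic at all points of `Re s = 1`, then the law of Sato and Tate holds for the natural density if and
  only if `m_2 ≤ 0`, `m_4 ≤ 0` and there is no concentration.

Proof. The mean value `φ(n)` of `cos (n θ_v)` is half of `m_n - m_{n-2}`, hence a positive definite function on the integers with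
values in `½ ℤ`.  By an argument of Helson such a function is eventually periodic (two weak limits of the translates with the
same past have the same future); the periodic part and the rest, which has finite support, are positive definite,
and both are determined completely with the integrality.
-/

set_option autoImplicit false
set_option linter.unusedSectionVars false

namespace Pool.Agent.Results.MP_4c4ce6_nt.MeromorphyThreeLaws

open NumberField IsDedekindDomain Filter Topology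

section

variable {K : Type} [Field K] [NumberField K]

/-- The norm of a prime. -/
noncomputable def q (v : HeightOneSpectrum (𝓞 K)) : ℕ := Ideal.absNorm v.asIdeal

/-- The Euler product `L(Sym^n, s) = ∏_v ∏_{0 ≤ j ≤ n} (1 - e^{i (n - 2 j) θ_v} q_v^{-s})⁻¹`. -/
noncomputable def symL (θ : HeightOneSpectrum (𝓞 K) → ℝ) (n : ℕ) (s : ℂ) : ℂ :=
  ∏' v, (∏ j ∈ Finset.range (n + 1),
    (1 - Complex.exp (((n : ℂ) - 2 * j) * θ v * Complex.I) * (q v : ℂ) ^ (-s)))⁻¹

/-- `Λ` is a meromorphic continuation of `L(Sym^n, s)` to a neighbourhood of `1 + iτ`. -/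
def IsContinuation (θ : HeightOneSpectrum (𝓞 K) → ℝ) (n : ℕ) (τ : ℝ) (Λ : ℂ → ℂ) : Prop :=
  MeromorphicAt Λ (1 + τ * Complex.I) ∧
    ∀ᶠ s in 𝓝 ((1 : ℂ) + τ * Complex.I), (1 : ℝ) < s.re → Λ s = symL θ n s

/-- `φ` has the mean value `c`, in the sense of the Dirichlet density. -/
def HasMean (φ : HeightOneSpectrum (𝓞 K) → ℝ) (c : ℝ) : Prop :=
  Tendsto (fun ε : ℝ => (∑' v, φ v * (q v : ℝ) ^ (-(1 + ε))) / ∑' v, (q (K := K) v : ℝ) ^ (-(1 + ε)))
    (𝓝[>] 0) (𝓝 c)

/-- `φ` has the mean value `c`, in the sense of the natural density. -/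
def HasAverage (φ : HeightOneSpectrum (𝓞 K) → ℝ) (c : ℝ) : Prop :=
  Tendsto (fun N : ℕ => (∑ᶠ v : {v : HeightOneSpectrum (𝓞 K) // q v ≤ N}, φ v.1) /
    (Nat.card {v : HeightOneSpectrum (𝓞 K) // q v ≤ N} : ℝ)) atTop (𝓝 c)

open Classical in
/-- The angles are concentrated near the multiples of `2π / N`. -/
def Concentrated (θ : HeightOneSpectrum (𝓞 K) → ℝ) (N : ℕ) : Prop :=
  ∀ δ : ℝ, 0 < δ →
    HasMean (fun v => if δ ≤ ‖Complex.exp (N * θ v * Complex.I) - 1‖ then (1 : ℝ) else 0) 0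

/-- The law of the angles is `J`, for the Dirichlet density: all continuous functions `f (cos θ_v)` have the mean value given
by `J`. -/
def HasLaw (θ : HeightOneSpectrum (𝓞 K) → ℝ) (J : (ℝ → ℝ) → ℝ) : Prop :=
  ∀ f : ℝ → ℝ, Continuous f → HasMean (fun v => f (Real.cos (θ v))) (J fun t => f (Real.cos t))

/-- The law of the angles is `J`, for the natural density. -/
def HasNaturalLaw (θ : HeightOneSpectrum (𝓞 K) → ℝ) (J : (ℝ → ℝ) → ℝ) : Prop :=
  ∀ f : ℝ → ℝ, Continuous f → HasAverage (fun v => f (Real.cos (θ v))) (J fun t => f (Real.cos t))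

end

/-- The law `(1 + σ cos N t) dt / π` on `[0, π]`. -/
noncomputable def contLaw (N : ℕ) (σ : ℤ) (g : ℝ → ℝ) : ℝ :=
  Real.pi⁻¹ * ∫ t in (0 : ℝ)..Real.pi, g t * (1 + σ * Real.cos (N * t))

/-- Half of the law `dt / π` on `[0, π]` plus half of the uniform measure on the `d` angles `(2 j + κ) π / d`. -/
noncomputable def mixedLaw (d κ : ℕ) (g : ℝ → ℝ) : ℝ :=
  1 / 2 * (Real.pi⁻¹ * ∫ t in (0 : ℝ)..Real.pi, g t) +
    1 / 2 * ((d : ℝ)⁻¹ * ∑ j ∈ Finset.range d, g ((2 * j + κ) * Real.pi / d))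

/-- The law of Sato and Tate `(2/π) sin² t dt`. -/
noncomputable def satoTate (g : ℝ → ℝ) : ℝ :=
  2 / Real.pi * ∫ t in (0 : ℝ)..Real.pi, g t * Real.sin t ^ 2

/-- The law of the group `N(U(1))`: half of `dt / π` plus half of the point mass at `π / 2`. -/
noncomputable def normaliserLaw (g : ℝ → ℝ) : ℝ :=
  1 / 2 * (Real.pi⁻¹ * ∫ t in (0 : ℝ)..Real.pi, g t) + 1 / 2 * g (Real.pi / 2)

section Bridge

open Pool.Agent.Q284.IM Pool.Agent.TH553.ST Pool.Agent.TH553.RS Pool.Agent.W540.BE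

variable {K : Type} [Field K] [NumberField K] {θ : HeightOneSpectrum (𝓞 K) → ℝ}

theorem symL_eq (n : ℕ) (s : ℂ) : symL θ n s = LS θ n s := by
  unfold symL LS
  refine tprod_congr fun v => ?_
  congr 1
  rw [Finset.prod_range]
  refine Finset.prod_congr rfl fun j _ => ?_
  unfold al
  push_cast
  rfl

theorem cn_iff {n : ℕ} {τ : ℝ} {Λ : ℂ → ℂ} : IsContinuation θ n τ Λ ↔ Cn θ n τ Λ := by
  unfold IsContinuation Cn
  simp only [symL_eq]

theorem mean_iff {φ : HeightOneSpectrum (𝓞 K) → ℝ} {c : ℝ} :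
    HasMean φ c ↔ Tendsto (dm φ) (𝓝[>] 0) (𝓝 c) := by
  unfold HasMean
  have : (fun ε : ℝ => (∑' v, φ v * (q v : ℝ) ^ (-(1 + ε))) /
      ∑' v, (q (K := K) v : ℝ) ^ (-(1 + ε))) = dm φ := by
    funext ε
    unfold dm EP
    simp only [one_mul]
    rfl
  rw [this]

theorem conc_iff {N : ℕ} : Concentrated θ N ↔ Conc θ N := by
  unfold Concentrated Conc
  refine forall_congr' fun δ => imp_congr_right fun _ => ?_
  rw [mean_iff]
  have : (fun v => if δ ≤ ‖Complex.exp (N * θ v * Complex.I) - 1‖ then (1 : ℝ) else 0) =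
      aw θ N δ := by
    funext v
    unfold aw
    push_cast
    rfl
  rw [this]

theorem cont_eq (N : ℕ) (σ : ℤ) : contLaw N σ = JC N σ := rfl

theorem mixed_eq (d κ : ℕ) : mixedLaw d κ = JB d κ := rfl

theorem st_eq : satoTate = JC 2 (-1) := by
  funext g
  unfold satoTate JC
  have e : (fun t : ℝ => g t * (1 + ((-1 : ℤ) : ℝ) * Real.cos ((2 : ℕ) * t))) =
      fun t => 2 * (g t * Real.sin t ^ 2) := by
    funext t
    push_cast
    rw [Real.sin_sq_eq_half_sub]
    ring
  rw [e, intervalIntegral.integral_const_mul]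
  ring

theorem nl_eq {f : ℝ → ℝ} : normaliserLaw (fun t => f (Real.cos t)) =
    JB 2 1 fun t => f (Real.cos t) := by
  unfold normaliserLaw JB
  have e1 : Real.cos (Real.pi / 2) = 0 := Real.cos_pi_div_two
  have e2 : Real.cos ((2 * ((0 : ℕ) : ℝ) + ((1 : ℕ) : ℝ)) * Real.pi / ((2 : ℕ) : ℝ)) = 0 := by
    rw [← e1]
    congr 1
    push_cast
    ring
  have e3 : Real.cos ((2 * ((1 : ℕ) : ℝ) + ((1 : ℕ) : ℝ)) * Real.pi / ((2 : ℕ) : ℝ)) = 0 := by
    have : (2 * ((1 : ℕ) : ℝ) + ((1 : ℕ) : ℝ)) * Real.pi / ((2 : ℕ) : ℝ) =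
        Real.pi / 2 + Real.pi := by
      push_cast
      ring
    rw [this, Real.cos_add_pi, e1, neg_zero]
  rw [Finset.sum_range_succ, Finset.sum_range_one]
  simp only [e1, e2, e3]
  push_cast
  ring

theorem avg_iff {φ : HeightOneSpectrum (𝓞 K) → ℝ} {c : ℝ} :
    HasAverage φ c ↔ Tendsto (mn φ) atTop (𝓝 c) := by
  unfold HasAverage
  have : (fun N : ℕ => (∑ᶠ v : {v : HeightOneSpectrum (𝓞 K) // q v ≤ N}, φ v.1) /
      (Nat.card {v : HeightOneSpectrum (𝓞 K) // q v ≤ N} : ℝ)) = mn φ := by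
    funext N
    have hs : ∀ v, v ∈ upto K N ↔ q v ≤ N := fun v => mem_upto
    let e : {v : HeightOneSpectrum (𝓞 K) // q v ≤ N} ≃ (upto K N) :=
      Equiv.subtypeEquivRight fun v => (hs v).symm
    have hfin : Finite {v : HeightOneSpectrum (𝓞 K) // q v ≤ N} := Finite.of_equiv _ e.symm
    unfold mn
    have h1 : (∑ᶠ v : {v : HeightOneSpectrum (𝓞 K) // q v ≤ N}, φ v.1) = ∑ v ∈ upto K N, φ v := by
      rw [← Finset.sum_coe_sort, ← finsum_eq_sum_of_fintype, ← finsum_comp_equiv e]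
      rfl
    have h2 : Nat.card {v : HeightOneSpectrum (𝓞 K) // q v ≤ N} = (upto K N).card := by
      rw [Nat.card_congr e, Nat.card_eq_fintype_card, Fintype.card_coe]
    rw [h1, h2, smul_eq_mul, div_eq_inv_mul]
  rw [this]

theorem law_iff {J : (ℝ → ℝ) → ℝ} : HasLaw θ J ↔ ∀ f : ℝ → ℝ, Continuous f →
    Tendsto (dm fun v => f (Real.cos (θ v))) (𝓝[>] 0) (𝓝 (J fun t => f (Real.cos t))) := by
  unfold HasLaw
  simp only [mean_iff]

theorem nlaw_iff {J : (ℝ → ℝ) → ℝ} : HasNaturalLaw θ J ↔ ∀ f : ℝ → ℝ, Continuous f →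
    Tendsto (mn fun v => f (Real.cos (θ v))) atTop (𝓝 (J fun t => f (Real.cos t))) := by
  unfold HasNaturalLaw
  simp only [avg_iff]

theorem lawS_iff : HasLaw θ satoTate ↔ LawS θ := by
  rw [law_iff, st_eq]
  exact ⟨fun h U hU n => ph_of_law θ h hU n,
    fun h f hf => law_of θ (JC_mean (by omega) (by simp)) h hf⟩

theorem lawN_iff : HasLaw θ normaliserLaw ↔ LawN θ := by
  rw [law_iff]
  simp only [nl_eq]
  exact ⟨fun h U hU n => ph_of_law θ h hU n,
    fun h f hf => law_of θ (JB_mean (by omega) 1) h hf⟩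

end Bridge

/-- **Three laws from meromorphic continuations.**  Let `K` be a number field and `θ_v` real numbers, for the primes `v` of `K`,
such that for all `n ≥ 1` the Euler product `L(Sym^n, s)` has a meromorphic continuation to a neighbourhood of `s = 1`, let `m_n` be
the order of its pole and `m_0 = 1`.

I. The angles are concentrated near the multiples of `2π / N` for some `N ≥ 1`, or their law is
`½ dt/π + ½ (uniform on the (2 j + κ) π / d)` for some `d ≥ 1`, `κ ∈ {0, 1}`, or it is `(1 + σ cos N t) dt / π` for some `N ≥ 1` and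
`σ ∈ {0, 1, -1}` (all for the Dirichlet density).

II. The law is that of Sato and Tate if and only if `m_2 ≤ 0`, `m_4 ≤ 0` and the angles are not concentrated for any `N ≥ 1`, and
then all `m_n` with `n ≥ 1` are zero.

III. The law is that of the group `N(U(1))` if and only if `m_2 ≤ 0`, `m_4 ≥ 1` and the angles are not concentrated for any `N ≥ 1`.

IV. If for all `n ≥ 1` and all `τ` there is a meromorphic continuation of `L(Sym^n, s)` to a neighbourhood of `1 + iτ`,
then the law of Sato and Tate holds for the natural density if and only if `m_2 ≤ 0`, `m_4 ≤ 0` and the angles are not concentrated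
for any `N ≥ 1`. -/
theorem result (K : Type) [Field K] [NumberField K] (θ : HeightOneSpectrum (𝓞 K) → ℝ)
    (hθ : ∀ n : ℕ, 1 ≤ n → ∃ Λ, IsContinuation θ n 0 Λ) :
    ∃ m : ℕ → ℤ, m 0 = 1 ∧
      (∀ n : ℕ, 1 ≤ n → ∀ Λ, IsContinuation θ n 0 Λ →
        meromorphicOrderAt Λ 1 = ((-m n : ℤ) : WithTop ℤ)) ∧
      ((∃ N : ℕ, 1 ≤ N ∧ Concentrated θ N) ∨
        (∃ d κ : ℕ, 1 ≤ d ∧ (κ = 0 ∨ κ = 1) ∧ HasLaw θ (mixedLaw d κ)) ∨
        ∃ (N : ℕ) (σ : ℤ), 1 ≤ N ∧ (σ = 0 ∨ σ = 1 ∨ σ = -1) ∧ HasLaw θ (contLaw N σ)) ∧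
      (HasLaw θ satoTate ↔ m 2 ≤ 0 ∧ m 4 ≤ 0 ∧ ∀ N : ℕ, 1 ≤ N → ¬ Concentrated θ N) ∧
      (HasLaw θ satoTate → ∀ n : ℕ, 1 ≤ n → m n = 0) ∧
      (HasLaw θ normaliserLaw ↔ m 2 ≤ 0 ∧ 1 ≤ m 4 ∧ ∀ N : ℕ, 1 ≤ N → ¬ Concentrated θ N) ∧
      ((∀ n : ℕ, 1 ≤ n → ∀ τ : ℝ, ∃ Λ, IsContinuation θ n τ Λ) →
        (HasNaturalLaw θ satoTate ↔
          m 2 ≤ 0 ∧ m 4 ≤ 0 ∧ ∀ N : ℕ, 1 ≤ N → ¬ Concentrated θ N)) := by
  simp only [cn_iff] at hθ ⊢
  obtain ⟨m, hm0, hm1, hm⟩ := Pool.Agent.Q284.IM.exists_m θ hθ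
  have h1 : (1 : ℂ) + ((0 : ℝ) : ℂ) * Complex.I = 1 := by simp
  have hcS : HasLaw θ satoTate ↔ m 2 ≤ 0 ∧ m 4 ≤ 0 ∧ ∀ N : ℕ, 1 ≤ N → ¬ Concentrated θ N := by
    rw [lawS_iff, Pool.Agent.Q284.IM.crit_S θ hm0 hm hθ]
    simp only [conc_iff]
  refine ⟨m, hm0, fun n hn Λ hΛ => ?_, ?_, hcS, fun h => ?_, ?_, fun hline => ?_⟩
  · have := hm1 n hn Λ hΛ
    rwa [h1] at this
  · rcases Pool.Agent.Q284.IM.three θ hθ with ⟨N, hN, -, h3⟩ | ⟨d, hd, κ, hκ, -, h3⟩ |
      ⟨N, hN, σ, hσ, -, h3⟩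
    · exact Or.inl ⟨N, hN, conc_iff.2 h3⟩
    · exact Or.inr (Or.inl ⟨d, κ, hd, hκ, law_iff.2 h3⟩)
    · exact Or.inr (Or.inr ⟨N, σ, hN, hσ, law_iff.2 h3⟩)
  · exact Pool.Agent.Q284.IM.m_S θ hm0 hm (lawS_iff.1 h)
  · rw [lawN_iff, Pool.Agent.Q284.IM.crit_N θ hm0 hm hθ]
    simp only [conc_iff]
  · rw [← hcS]
    constructor
    · intro h
      rw [lawS_iff]
      intro U hU n
      rw [nlaw_iff, st_eq] at h
      have h2 := h (fun x => (Polynomial.Chebyshev.T ℝ n).eval x)
        (Polynomial.Chebyshev.T ℝ n).continuous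
      simp only [Polynomial.Chebyshev.T_real_cos] at h2
      exact Pool.Agent.TH553.ST.M_of_mn hU (Pool.Agent.Q284.IM.bd_cos θ n) h2
    · intro h
      have hS := lawS_iff.1 h
      have hm' := Pool.Agent.Q284.IM.m_S θ hm0 hm hS
      rw [nlaw_iff, st_eq]
      intro f hf
      refine Pool.Agent.Q284.IM.natural θ hS hline (fun n hn Λ hΛ => ?_) hf
      rw [hm1 n hn Λ hΛ, hm' n hn, neg_zero]

end Pool.Agent.Results.MP_4c4ce6_nt.MeromorphyThreeLaws
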